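import Pool.Agent.H419.Pack

set_option autoImplicit false
set_option linter.unusedSectionVars false

namespace Pool.Agent.H419.Blocks

variable {α : Type*} [DecidableEq α]

theorem numeric {s m N : ℕ} (hs : 1 ≤ s) (hm : s < m) (F : Finset (Finset α))
    (hF : F.card * s < m) {w : ℕ} (hN : N ≤ w + ∑ B ∈ F, B.card) {M : ℝ}
    (hM : (∑ B ∈ F, ((B.card.choose (s + 1) : ℕ) : ℝ)) ≤ M) :
    ((1 / (((m - 1) / s : ℕ) : ℝ) ^ s) - (s + 1) * ((w : ℝ) + m) / N) * (N.choose (s + 1) : ℕ)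
      ≤ M := by
  set k := (m - 1) / s with hk
  have hk1 : 1 ≤ k := by
    rw [hk, Nat.le_div_iff_mul_le (by omega)]; omega
  have hkm : k * s ≤ m - 1 := Nat.div_mul_le_self _ _
  have hFk : F.card ≤ k := by
    rw [hk, Nat.le_div_iff_mul_le (by omega)]; omega
  have hk1r : (1 : ℝ) ≤ (k : ℝ) := by exact_mod_cast hk1
  have hks : (1 : ℝ) ≤ (k : ℝ) ^ s := one_le_pow₀ hk1r
  have hq1 : 1 / (k : ℝ) ^ s ≤ 1 := by
    rw [div_le_one (by positivity)]; exact hks
  have hq0 : 0 < 1 / (k : ℝ) ^ s := by positivity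
  have hM0 : 0 ≤ M := le_trans (Finset.sum_nonneg fun B _ => by positivity) hM
  have hc0 : (0 : ℝ) ≤ ((N.choose (s + 1) : ℕ) : ℝ) := by positivity
  rcases Nat.eq_zero_or_pos N with h0 | hNpos
  · subst h0
    simp [hM0]
  have hNr : (0 : ℝ) < (N : ℝ) := by exact_mod_cast hNpos
  by_cases hcase : (N : ℝ) ≤ (s + 1) * ((w : ℝ) + m)
  · have h1 : 1 ≤ (s + 1) * ((w : ℝ) + m) / N := by
      rw [le_div_iff₀ hNr]; linarith
    have h2 : ((1 / (k : ℝ) ^ s) - (s + 1) * ((w : ℝ) + m) / N) ≤ 0 := by linarith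
    exact le_trans (mul_nonpos_of_nonpos_of_nonneg h2 hc0) hM0
  push Not at hcase
  -- the main case
  set W : ℝ := (w : ℝ) + m with hW
  have hW0 : 0 ≤ W := by positivity
  have hf : (0 : ℝ) < ((s + 1).factorial : ℝ) := by exact_mod_cast Nat.factorial_pos _
  have hx : ∀ B ∈ F, (((B.card - s : ℕ) : ℝ)) ^ (s + 1) ≤
      ((s + 1).factorial : ℝ) * ((B.card.choose (s + 1) : ℕ) : ℝ) := by
    intro B _
    have h1 := Nat.pow_sub_le_descFactorial B.card (s + 1)
    rw [Nat.descFactorial_eq_factorial_mul_choose] at h1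
    have h2 : B.card + 1 - (s + 1) = B.card - s := by omega
    rw [h2] at h1
    exact_mod_cast h1
  have hsumx : (N : ℝ) - W ≤ ∑ B ∈ F, ((B.card - s : ℕ) : ℝ) := by
    have h1 : (∑ B ∈ F, B.card) ≤ ∑ B ∈ F, (B.card - s) + F.card * s := by
      calc (∑ B ∈ F, B.card) ≤ ∑ B ∈ F, ((B.card - s) + s) :=
            Finset.sum_le_sum fun B _ => by omega
        _ = ∑ B ∈ F, (B.card - s) + F.card * s := by
            rw [Finset.sum_add_distrib, Finset.sum_const, smul_eq_mul]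
    have h2 : N ≤ w + m + ∑ B ∈ F, (B.card - s) := by omega
    have h3 : (N : ℝ) ≤ (w : ℝ) + m + ∑ B ∈ F, ((B.card - s : ℕ) : ℝ) := by exact_mod_cast h2
    rw [hW]; linarith
  have hNW : 0 < (N : ℝ) - W := by
    have : W ≤ (s + 1) * W := by nlinarith [(by positivity : (0:ℝ) ≤ (s:ℝ))]
    linarith
  have hFpos : 0 < F.card := by
    rcases Nat.eq_zero_or_pos F.card with h | h
    · rw [Finset.card_eq_zero] at h
      subst h
      simp at hsumx
      linarith
    · exact h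
  have hpm := pow_sum_div_card_le_sum_pow (s := F) (f := fun B => ((B.card - s : ℕ) : ℝ))
    (fun B _ => by positivity) s
  have h4 : ((N : ℝ) - W) ^ (s + 1) / (k : ℝ) ^ s ≤ ∑ B ∈ F, ((B.card - s : ℕ) : ℝ) ^ (s + 1) := by
    refine le_trans ?_ hpm
    have h5 : ((N : ℝ) - W) ^ (s + 1) ≤ (∑ B ∈ F, ((B.card - s : ℕ) : ℝ)) ^ (s + 1) :=
      pow_le_pow_left₀ hNW.le hsumx _
    have h6 : ((F.card : ℝ)) ^ s ≤ (k : ℝ) ^ s :=
      pow_le_pow_left₀ (by positivity) (by exact_mod_cast hFk) _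
    have h7 : (0 : ℝ) < ((F.card : ℝ)) ^ s := by
      have : (0 : ℝ) < (F.card : ℝ) := by exact_mod_cast hFpos
      positivity
    exact div_le_div₀ (pow_nonneg (le_trans hNW.le hsumx) _) h5 h7 h6
  have h8 : ∑ B ∈ F, ((B.card - s : ℕ) : ℝ) ^ (s + 1) ≤ ((s + 1).factorial : ℝ) * M := by
    calc ∑ B ∈ F, ((B.card - s : ℕ) : ℝ) ^ (s + 1)
        ≤ ∑ B ∈ F, ((s + 1).factorial : ℝ) * ((B.card.choose (s + 1) : ℕ) : ℝ) :=
          Finset.sum_le_sum hx
      _ = ((s + 1).factorial : ℝ) * ∑ B ∈ F, ((B.card.choose (s + 1) : ℕ) : ℝ) := by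
          rw [Finset.mul_sum]
      _ ≤ ((s + 1).factorial : ℝ) * M := mul_le_mul_of_nonneg_left hM hf.le
  have h9 : (N : ℝ) ^ (s + 1) * (1 - (s + 1) * W / N) ≤ ((N : ℝ) - W) ^ (s + 1) := by
    have hb := one_add_mul_le_pow (a := -(W / N)) (by
      have : W / N ≤ 1 := by rw [div_le_one hNr]; linarith
      linarith) (s + 1)
    have e : ((N : ℝ) - W) ^ (s + 1) = (N : ℝ) ^ (s + 1) * (1 + -(W / N)) ^ (s + 1) := by
      rw [← mul_pow]; congr 1; field_simp; ring
    rw [e]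
    refine mul_le_mul_of_nonneg_left (le_trans (le_of_eq ?_) hb) (by positivity)
    push_cast
    ring
  have h10 : ((s + 1).factorial : ℝ) * ((N.choose (s + 1) : ℕ) : ℝ) ≤ (N : ℝ) ^ (s + 1) := by
    have h1 := Nat.descFactorial_le_pow N (s + 1)
    rw [Nat.descFactorial_eq_factorial_mul_choose] at h1
    exact_mod_cast h1
  have h11 : 0 ≤ 1 - (s + 1) * W / N := by
    have : (s + 1) * W / N ≤ 1 := by rw [div_le_one hNr]; exact hcase.le
    linarith
  have h12 : (1 / (k : ℝ) ^ s) * ((1 - (s + 1) * W / N) *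
      (((s + 1).factorial : ℝ) * ((N.choose (s + 1) : ℕ) : ℝ))) ≤ ((s + 1).factorial : ℝ) * M := by
    calc (1 / (k : ℝ) ^ s) * ((1 - (s + 1) * W / N) *
        (((s + 1).factorial : ℝ) * ((N.choose (s + 1) : ℕ) : ℝ)))
        ≤ (1 / (k : ℝ) ^ s) * ((1 - (s + 1) * W / N) * (N : ℝ) ^ (s + 1)) := by
          gcongr
      _ = ((N : ℝ) ^ (s + 1) * (1 - (s + 1) * W / N)) / (k : ℝ) ^ s := by ring
      _ ≤ ((N : ℝ) - W) ^ (s + 1) / (k : ℝ) ^ s := by gcongr
      _ ≤ _ := h4.trans h8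
  have h13 : ((1 / (k : ℝ) ^ s) - (s + 1) * W / N) * ((N.choose (s + 1) : ℕ) : ℝ) ≤
      (1 / (k : ℝ) ^ s) * (1 - (s + 1) * W / N) * ((N.choose (s + 1) : ℕ) : ℝ) := by
    refine mul_le_mul_of_nonneg_right ?_ hc0
    have h14 : 0 ≤ (s + 1) * W / N := by positivity
    nlinarith
  refine h13.trans ?_
  have h15 : ((s + 1).factorial : ℝ) * ((1 / (k : ℝ) ^ s) * (1 - (s + 1) * W / N) *
      ((N.choose (s + 1) : ℕ) : ℝ)) ≤ ((s + 1).factorial : ℝ) * M := by
    refine le_trans (le_of_eq ?_) h12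
    ring
  exact le_of_mul_le_mul_left h15 hf

/-- the constant -/
def W0 (s m : ℕ) : ℕ := m + 2 ^ m * C0 s m

open Classical in
theorem local_missing {s m : ℕ} (hs : 1 ≤ s) (hm : s < m) {H : Finset (Finset α)} {S : Finset α}
    (hC : Closed s H S) (hK : ∀ X ⊆ S, X.card = m → ∃ T ⊆ X, T.card = s + 1 ∧ T ∉ H) :
    ((1 / (((m - 1) / s : ℕ) : ℝ) ^ s) - (s + 1) * ((W0 s m : ℝ) + m) / S.card) *
      (S.card.choose (s + 1) : ℕ) ≤ ((S.powersetCard (s + 1)).filter (· ∉ H)).card := by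
  obtain ⟨F, h1, h2, h3, h4, h5⟩ := structure_thm hC hK
  refine numeric hs hm F h1 (w := W0 s m) h5 ?_
  exact_mod_cast count_missing F h2 h3 h4

theorem W0_bound (s m : ℕ) : (s + 1) * (W0 s m + m) ≤ 2 * 4 ^ m * (s + 1) ^ 2 := by
  unfold W0 C0
  have h1 : m + 1 ≤ 2 ^ m := Nat.lt_two_pow_self
  have h2 : (4 : ℕ) ^ m = 2 ^ m * 2 ^ m := by
    rw [show (4 : ℕ) = 2 * 2 by norm_num, mul_pow]
  rw [h2]
  set t := 2 ^ m with ht
  have h3 : m + t * (m + t * s + t * s + 1) + m ≤ 2 * (t * t) * (s + 1) := by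
    have h4 : t * (m + 1) ≤ t * t := Nat.mul_le_mul_left _ h1
    have h5 : 2 * m ≤ t * t := by nlinarith
    nlinarith
  calc (s + 1) * (m + t * (m + t * s + t * s + 1) + m) ≤ (s + 1) * (2 * (t * t) * (s + 1)) :=
        Nat.mul_le_mul_left _ h3
    _ = 2 * (t * t) * (s + 1) ^ 2 := by ring

/-- number of `N`-sets containing a given set -/
theorem card_supersets {n : ℕ} (N : ℕ) (T : Finset (Fin n)) (hT : T.card ≤ N) :
    (((Finset.univ : Finset (Fin n)).powersetCard N).filter (fun S => T ⊆ S)).card =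
      (n - T.card).choose (N - T.card) := by
  have h : (((Finset.univ : Finset (Fin n)) \ T).powersetCard (N - T.card)).card =
      (n - T.card).choose (N - T.card) := by
    rw [Finset.card_powersetCard, Finset.card_sdiff_of_subset (Finset.subset_univ T),
      Finset.card_univ, Fintype.card_fin]
  rw [← h]
  refine Finset.card_nbij' (fun S => S \ T) (fun U => U ∪ T) ?_ ?_ ?_ ?_
  · intro S hS
    simp only [Finset.coe_filter, Finset.mem_powersetCard, Set.mem_setOf_eq] at hS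
    obtain ⟨⟨_, hS⟩, hTS⟩ := hS
    rw [Finset.mem_coe, Finset.mem_powersetCard, Finset.card_sdiff_of_subset hTS, hS]
    exact ⟨Finset.sdiff_subset_sdiff (Finset.subset_univ _) (Finset.Subset.refl _), rfl⟩
  · intro U hU
    rw [Finset.mem_coe, Finset.mem_powersetCard] at hU
    obtain ⟨hU1, hU2⟩ := hU
    have hd : Disjoint U T := by
      rw [Finset.disjoint_left]
      intro x hx hx'
      exact (Finset.mem_sdiff.mp (hU1 hx)).2 hx'
    simp only [Finset.coe_filter, Finset.mem_powersetCard, Set.mem_setOf_eq]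
    refine ⟨⟨Finset.subset_univ _, ?_⟩, Finset.subset_union_right⟩
    rw [Finset.card_union_of_disjoint hd, hU2]
    omega
  · intro S hS
    simp only [Finset.coe_filter, Finset.mem_powersetCard, Set.mem_setOf_eq] at hS
    exact Finset.sdiff_union_of_subset hS.2
  · intro U hU
    rw [Finset.mem_coe, Finset.mem_powersetCard] at hU
    obtain ⟨hU1, hU2⟩ := hU
    ext x
    simp only [Finset.mem_sdiff, Finset.mem_union]
    constructor
    · rintro ⟨h1 | h1, h2⟩
      · exact h1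
      · exact absurd h1 h2
    · intro h1
      exact ⟨Or.inl h1, (Finset.mem_sdiff.mp (hU1 h1)).2⟩

/-- double counting -/
theorem sum_sub {n : ℕ} (N t : ℕ) (ht : t ≤ N) (G : Finset (Finset (Fin n)))
    (hG : ∀ T ∈ G, T.card = t) :
    ∑ S ∈ (Finset.univ : Finset (Fin n)).powersetCard N, (G.filter (· ⊆ S)).card =
      G.card * (n - t).choose (N - t) := by
  have h1 : ∀ S : Finset (Fin n), (G.filter (· ⊆ S)).card = ∑ T ∈ G, if T ⊆ S then 1 else 0 := by
    intro S
    rw [Finset.card_filter]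
  simp only [h1]
  rw [Finset.sum_comm]
  rw [Finset.sum_congr rfl (g := fun _ => (n - t).choose (N - t))]
  · simp
  · intro T hT
    rw [← Finset.card_filter, card_supersets N T (by rw [hG T hT]; exact ht), hG T hT]

end Pool.Agent.H419.Blocks
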