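import Mathlib

set_option autoImplicit false

namespace Pool.Agent.H419.Blocks

variable {α : Type*} [DecidableEq α]

/-- as soon as two `(s+1)`-subsets of an `(s+2)`-subset of `S` are missing, all are -/
def Closed (s : ℕ) (H : Finset (Finset α)) (S : Finset α) : Prop :=
  ∀ P ⊆ S, P.card = s + 2 → ∀ A ⊆ P, ∀ B ⊆ P, A.card = s + 1 → B.card = s + 1 → A ≠ B →
    A ∉ H → B ∉ H → ∀ C ⊆ P, C.card = s + 1 → C ∉ H

open Classical in
/-- the block of an `s`-set -/
noncomputable def blk (H : Finset (Finset α)) (S R : Finset α) : Finset α :=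
  S.filter (fun v => v ∈ R ∨ insert v R ∉ H)

theorem mem_blk {H : Finset (Finset α)} {S R : Finset α} {v : α} :
    v ∈ blk H S R ↔ v ∈ S ∧ (v ∈ R ∨ insert v R ∉ H) := by
  unfold blk; simp

theorem blk_sub (H : Finset (Finset α)) (S R : Finset α) : blk H S R ⊆ S := fun _ hv =>
  (mem_blk.mp hv).1

theorem sub_blk {H : Finset (Finset α)} {S R : Finset α} (h : R ⊆ S) : R ⊆ blk H S R :=
  fun _ hv => mem_blk.mpr ⟨h hv, Or.inl hv⟩

/-- all `(s+1)`-subsets of a block are missing -/
theorem blk_miss {s : ℕ} {H : Finset (Finset α)} {S : Finset α} (hC : Closed s H S)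
    {R : Finset α} (hR : R ⊆ S) (hRc : R.card = s) :
    ∀ j : ℕ, ∀ A ⊆ blk H S R, A.card = s + 1 → (A \ R).card = j + 1 → A ∉ H := by
  intro j
  induction j with
  | zero =>
    intro A hA hAc hj
    obtain ⟨v, hv⟩ := Finset.card_eq_one.mp hj
    have hvA : v ∈ A ∧ v ∉ R := by
      have : v ∈ A \ R := by rw [hv]; exact Finset.mem_singleton_self v
      simpa using this
    have hsub : A ⊆ insert v R := by
      intro x hx
      by_cases hxR : x ∈ R
      · exact Finset.mem_insert_of_mem hxR
      · have : x ∈ A \ R := Finset.mem_sdiff.mpr ⟨hx, hxR⟩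
        rw [hv, Finset.mem_singleton] at this
        rw [this]; exact Finset.mem_insert_self _ _
    have he : A = insert v R := by
      apply Finset.eq_of_subset_of_card_le hsub
      rw [Finset.card_insert_of_notMem hvA.2]; omega
    have := (mem_blk.mp (hA hvA.1)).2
    rcases this with h | h
    · exact absurd h hvA.2
    · rw [he]; exact h
  | succ j ih =>
    intro A hA hAc hj
    have hinter : (A \ R).card + (A ∩ R).card = A.card := Finset.card_sdiff_add_card_inter A R
    have hRA : 0 < (R \ A).card := by
      have h1 : (R \ A).card + (R ∩ A).card = R.card := Finset.card_sdiff_add_card_inter R A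
      rw [Finset.inter_comm] at h1
      omega
    obtain ⟨b, hb⟩ := Finset.card_pos.mp hRA
    obtain ⟨hbR, hbA⟩ := Finset.mem_sdiff.mp hb
    obtain ⟨a1, ha1, a2, ha2, h12⟩ := Finset.one_lt_card.mp (by omega : 1 < (A \ R).card)
    obtain ⟨ha1A, ha1R⟩ := Finset.mem_sdiff.mp ha1
    obtain ⟨ha2A, ha2R⟩ := Finset.mem_sdiff.mp ha2
    have key : ∀ a ∈ A, a ∉ R → insert b (A.erase a) ∉ H := by
      intro a haA haR
      have hbe : b ∉ A.erase a := fun h => hbA (Finset.mem_of_mem_erase h)
      apply ih
      · intro x hx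
        rcases Finset.mem_insert.mp hx with rfl | hx
        · exact sub_blk hR hbR
        · exact hA (Finset.mem_of_mem_erase hx)
      · rw [Finset.card_insert_of_notMem hbe, Finset.card_erase_of_mem haA]; omega
      · have : insert b (A.erase a) \ R = (A \ R).erase a := by
          ext x
          simp only [Finset.mem_sdiff, Finset.mem_insert, Finset.mem_erase]
          constructor
          · rintro ⟨rfl | ⟨h1, h2⟩, h3⟩
            · exact absurd hbR h3
            · exact ⟨h1, h2, h3⟩
          · rintro ⟨h1, h2, h3⟩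
            exact ⟨Or.inr ⟨h1, h2⟩, h3⟩
        rw [this, Finset.card_erase_of_mem (Finset.mem_sdiff.mpr ⟨haA, haR⟩)]
        omega
    refine hC (insert b A) ?_ ?_ (insert b (A.erase a1)) ?_ (insert b (A.erase a2)) ?_ ?_ ?_ ?_
      (key a1 ha1A ha1R) (key a2 ha2A ha2R) A (Finset.subset_insert _ _) hAc
    · intro x hx
      rcases Finset.mem_insert.mp hx with rfl | hx
      · exact hR hbR
      · exact blk_sub _ _ _ (hA hx)
    · rw [Finset.card_insert_of_notMem hbA, hAc]
    · exact Finset.insert_subset_insert _ (Finset.erase_subset _ _)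
    · exact Finset.insert_subset_insert _ (Finset.erase_subset _ _)
    · rw [Finset.card_insert_of_notMem (fun h => hbA (Finset.mem_of_mem_erase h)),
        Finset.card_erase_of_mem ha1A]; omega
    · rw [Finset.card_insert_of_notMem (fun h => hbA (Finset.mem_of_mem_erase h)),
        Finset.card_erase_of_mem ha2A]; omega
    · intro h
      have h2 : a2 ∈ insert b (A.erase a1) :=
        Finset.mem_insert_of_mem (Finset.mem_erase.mpr ⟨h12.symm, ha2A⟩)
      rw [h] at h2
      rcases Finset.mem_insert.mp h2 with h3 | h3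
      · exact hbA (h3 ▸ ha2A)
      · exact (Finset.mem_erase.mp h3).1 rfl

theorem blk_missing {s : ℕ} {H : Finset (Finset α)} {S : Finset α} (hC : Closed s H S)
    {R : Finset α} (hR : R ⊆ S) (hRc : R.card = s) {A : Finset α} (hA : A ⊆ blk H S R)
    (hAc : A.card = s + 1) : A ∉ H := by
  have hinter : (A \ R).card + (A ∩ R).card = A.card := Finset.card_sdiff_add_card_inter A R
  have h2 : (A ∩ R).card ≤ R.card := Finset.card_le_card Finset.inter_subset_right
  obtain ⟨j, hj⟩ : ∃ j, (A \ R).card = j + 1 := ⟨(A \ R).card - 1, by omega⟩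
  exact blk_miss hC hR hRc j A hA hAc hj

/-- a point that completes one `s`-subset of a block to a missing set lies in the block -/
theorem mem_of_missing {s : ℕ} {H : Finset (Finset α)} {S : Finset α} (hC : Closed s H S)
    {R Q : Finset α} (hR : R ⊆ S) (hRc : R.card = s)
    (hQ : Q ⊆ blk H S R) (hQc : Q.card = s) {x : α} (hx : x ∈ S) (hxQ : insert x Q ∉ H)
    : x ∈ blk H S R := by
  by_contra hxB
  have main : ∀ j : ℕ, ∀ Q' ⊆ blk H S R, Q'.card = s → (Q' \ Q).card = j → insert x Q' ∉ H := by
    intro j
    induction j with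
    | zero =>
      intro Q' _ hQ'c hj
      have h1 : Q' ⊆ Q := Finset.sdiff_eq_empty_iff_subset.mp (Finset.card_eq_zero.mp hj)
      have h2 : Q' = Q := Finset.eq_of_subset_of_card_le h1 (by omega)
      rw [h2]; exact hxQ
    | succ j ih =>
      intro Q' hQ' hQ'c hj
      have hpos : 0 < (Q' \ Q).card := by omega
      obtain ⟨b, hb⟩ := Finset.card_pos.mp hpos
      obtain ⟨hbQ', hbQ⟩ := Finset.mem_sdiff.mp hb
      have h1 : (Q \ Q').card + (Q ∩ Q').card = Q.card := Finset.card_sdiff_add_card_inter Q Q'
      have h2 : (Q' \ Q).card + (Q' ∩ Q).card = Q'.card := Finset.card_sdiff_add_card_inter Q' Q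
      rw [Finset.inter_comm] at h2
      have hpos2 : 0 < (Q \ Q').card := by omega
      obtain ⟨a, ha⟩ := Finset.card_pos.mp hpos2
      obtain ⟨haQ, haQ'⟩ := Finset.mem_sdiff.mp ha
      have hxQ' : x ∉ insert a Q' := by
        intro h
        rcases Finset.mem_insert.mp h with rfl | h
        · exact hxB (hQ haQ)
        · exact hxB (hQ' h)
      have hae : a ∉ Q'.erase b := fun h => haQ' (Finset.mem_of_mem_erase h)
      have hQ''sub : insert a (Q'.erase b) ⊆ blk H S R := by
        intro y hy
        rcases Finset.mem_insert.mp hy with rfl | hy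
        · exact hQ haQ
        · exact hQ' (Finset.mem_of_mem_erase hy)
      have hQ''c : (insert a (Q'.erase b)).card = s := by
        rw [Finset.card_insert_of_notMem hae, Finset.card_erase_of_mem hbQ']; 
        have : 0 < Q'.card := Finset.card_pos.mpr ⟨b, hbQ'⟩
        omega
      have hQ''d : (insert a (Q'.erase b) \ Q).card = j := by
        have : insert a (Q'.erase b) \ Q = (Q' \ Q).erase b := by
          ext y
          simp only [Finset.mem_sdiff, Finset.mem_insert, Finset.mem_erase]
          constructor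
          · rintro ⟨rfl | ⟨h1, h2⟩, h3⟩
            · exact absurd haQ h3
            · exact ⟨h1, h2, h3⟩
          · rintro ⟨h1, h2, h3⟩
            exact ⟨Or.inr ⟨h1, h2⟩, h3⟩
        rw [this, Finset.card_erase_of_mem hb]; omega
      have hm := ih _ hQ''sub hQ''c hQ''d
      have haQ'sub : insert a Q' ⊆ blk H S R := by
        intro y hy
        rcases Finset.mem_insert.mp hy with rfl | hy
        · exact hQ haQ
        · exact hQ' hy
      have haQ'c : (insert a Q').card = s + 1 := by
        rw [Finset.card_insert_of_notMem haQ', hQ'c]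
      refine hC (insert x (insert a Q')) ?_ ?_ (insert a Q') (Finset.subset_insert _ _)
        (insert x (insert a (Q'.erase b))) ?_ haQ'c ?_ ?_ (blk_missing hC hR hRc haQ'sub haQ'c) hm
        (insert x Q') (Finset.insert_subset_insert _ (Finset.subset_insert _ _)) ?_
      · intro y hy
        rcases Finset.mem_insert.mp hy with rfl | hy
        · exact hx
        · exact blk_sub _ _ _ (haQ'sub hy)
      · rw [Finset.card_insert_of_notMem hxQ', haQ'c]
      · exact Finset.insert_subset_insert _ (Finset.insert_subset_insert _ (Finset.erase_subset _ _))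
      · rw [Finset.card_insert_of_notMem, hQ''c]
        intro h
        exact hxB (hQ''sub h)
      · intro h
        apply hxQ'
        rw [h]
        exact Finset.mem_insert_self _ _
      · rw [Finset.card_insert_of_notMem, hQ'c]
        intro h
        exact hxQ' (Finset.mem_insert_of_mem h)
  have := main _ R (sub_blk hR) hRc rfl
  exact hxB (mem_blk.mpr ⟨hx, Or.inr this⟩)

/-- blocks with `s` common points: the second is contained in the first -/
theorem blk_le {s : ℕ} {H : Finset (Finset α)} {S : Finset α} (hC : Closed s H S)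
    {R R' : Finset α} (hR : R ⊆ S) (hRc : R.card = s) (hR' : R' ⊆ S) (hRc' : R'.card = s)
    (h : s ≤ (blk H S R ∩ blk H S R').card) : blk H S R' ⊆ blk H S R := by
  obtain ⟨Q, hQ, hQc⟩ := Finset.exists_subset_card_eq h
  intro x hx
  by_contra hxB
  have hxQ : x ∉ Q := fun h => hxB (Finset.mem_inter.mp (hQ h)).1
  have hsub : insert x Q ⊆ blk H S R' := by
    intro y hy
    rcases Finset.mem_insert.mp hy with rfl | hy
    · exact hx
    · exact (Finset.mem_inter.mp (hQ hy)).2
  have hm : insert x Q ∉ H := blk_missing hC hR' hRc' hsub (by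
    rw [Finset.card_insert_of_notMem hxQ, hQc])
  exact hxB (mem_of_missing hC hR hRc (fun y hy => (Finset.mem_inter.mp (hQ hy)).1) hQc
    (blk_sub _ _ _ hx) hm)

theorem blk_eq {s : ℕ} {H : Finset (Finset α)} {S : Finset α} (hC : Closed s H S)
    {R R' : Finset α} (hR : R ⊆ S) (hRc : R.card = s) (hR' : R' ⊆ S) (hRc' : R'.card = s)
    (h : s ≤ (blk H S R ∩ blk H S R').card) : blk H S R = blk H S R' := by
  apply Finset.Subset.antisymm
  · rw [Finset.inter_comm] at h
    exact blk_le hC hR' hRc' hR hRc h
  · exact blk_le hC hR hRc hR' hRc' h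

open Classical in
/-- few points of a block are bad for an `s`-set outside the block -/
theorem few_bad {s : ℕ} {H : Finset (Finset α)} {S : Finset α} (hC : Closed s H S)
    {R R' : Finset α} (hR : R ⊆ S) (hRc : R.card = s) (hR' : R' ⊆ S) (hRc' : R'.card = s)
    (h : ¬ R' ⊆ blk H S R) :
    ((blk H S R).filter (fun v => v ∉ R' ∧ insert v R' ∉ H)).card ≤ s := by
  by_contra hlt
  push Not at hlt
  apply h
  have hsub : (blk H S R).filter (fun v => v ∉ R' ∧ insert v R' ∉ H) ⊆
      blk H S R ∩ blk H S R' := by
    intro v hv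
    rw [Finset.mem_filter] at hv
    exact Finset.mem_inter.mpr ⟨hv.1, mem_blk.mpr ⟨blk_sub _ _ _ hv.1, Or.inr hv.2.2⟩⟩
  have h1 := blk_le hC hR hRc hR' hRc' (le_trans hlt.le (Finset.card_le_card hsub))
  exact (sub_blk hR').trans h1

end Pool.Agent.H419.Blocks
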