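import Pool.Agent.H419.Blocks

set_option autoImplicit false
set_option linter.unusedSectionVars false

namespace Pool.Agent.H419.Blocks

variable {α : Type*} [DecidableEq α]

/-- all `(s+1)`-subsets of `X` are members of `H` -/
def Ind (s : ℕ) (H : Finset (Finset α)) (S X : Finset α) : Prop :=
  X ⊆ S ∧ ∀ A ⊆ X, A.card = s + 1 → A ∈ H

theorem ind_card {s m : ℕ} {H : Finset (Finset α)} {S : Finset α}
    (hK : ∀ X ⊆ S, X.card = m → ∃ T ⊆ X, T.card = s + 1 ∧ T ∉ H) {X : Finset α}
    (hX : Ind s H S X) : X.card < m := by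
  by_contra h
  push Not at h
  obtain ⟨Y, hY, hYc⟩ := Finset.exists_subset_card_eq h
  obtain ⟨T, hT, hTc, hTH⟩ := hK Y (hY.trans hX.1) hYc
  exact hTH (hX.2 T (hT.trans hY) hTc)

theorem ind_empty (s : ℕ) (H : Finset (Finset α)) (S : Finset α) : Ind s H S ∅ := by
  refine ⟨Finset.empty_subset _, ?_⟩
  intro A hA hAc
  rw [Finset.subset_empty.mp hA] at hAc
  simp at hAc

open Classical in
theorem exists_max_ind (s : ℕ) (H : Finset (Finset α)) (S : Finset α) :
    ∃ G, Ind s H S G ∧ ∀ v ∈ S, v ∉ G → ∃ R ⊆ G, R.card = s ∧ insert v R ∉ H := by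
  have hne : (S.powerset.filter (fun X => Ind s H S X)).Nonempty :=
    ⟨∅, by simp [ind_empty]⟩
  obtain ⟨G, hG, hmax⟩ := Finset.exists_max_image _ (fun X => X.card) hne
  rw [Finset.mem_filter] at hG
  refine ⟨G, hG.2, ?_⟩
  intro v hv hvG
  by_contra hno
  push Not at hno
  have hI : Ind s H S (insert v G) := by
    refine ⟨?_, ?_⟩
    · intro x hx
      rcases Finset.mem_insert.mp hx with rfl | hx
      · exact hv
      · exact hG.2.1 hx
    · intro A hA hAc
      by_cases hvA : v ∈ A
      · have h1 : A.erase v ⊆ G := by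
          intro x hx
          obtain ⟨h1, h2⟩ := Finset.mem_erase.mp hx
          rcases Finset.mem_insert.mp (hA h2) with h | h
          · exact absurd h h1
          · exact h
        have h2 := hno _ h1 (by rw [Finset.card_erase_of_mem hvA]; omega)
        rwa [Finset.insert_erase hvA] at h2
      · refine hG.2.2 A ?_ hAc
        intro x hx
        rcases Finset.mem_insert.mp (hA hx) with rfl | h
        · exact absurd hx hvA
        · exact h
  have h3 := hmax (insert v G) (by
    rw [Finset.mem_filter, Finset.mem_powerset]; exact ⟨hI.1, hI⟩)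
  rw [Finset.card_insert_of_notMem hvG] at h3
  omega

theorem card_powersetCard_le (G : Finset α) (s m : ℕ) (h : G.card ≤ m) :
    (G.powersetCard s).card ≤ 2 ^ m := by
  calc (G.powersetCard s).card ≤ G.powerset.card :=
        Finset.card_le_card (fun A hA => Finset.mem_powerset.mpr (Finset.mem_powersetCard.mp hA).1)
    _ = 2 ^ G.card := Finset.card_powerset G
    _ ≤ 2 ^ m := Nat.pow_le_pow_right (by norm_num) h

open Classical in
/-- there are at most `(m-1)/s` large blocks -/
theorem packing {s m : ℕ} {H : Finset (Finset α)} {S : Finset α}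
    (hC : Closed s H S) (hK : ∀ X ⊆ S, X.card = m → ∃ T ⊆ X, T.card = s + 1 ∧ T ∉ H)
    (F : Finset (Finset α)) (hF : ∀ B ∈ F, ∃ R ⊆ S, R.card = s ∧ B = blk H S R)
    (hbig : ∀ B ∈ F, m + F.card * s + 2 ^ m * s < B.card) : F.card * s < m := by
  by_contra hlt
  push Not at hlt
  have hinter : ∀ B ∈ F, ∀ B' ∈ F, B ≠ B' → (B ∩ B').card ≤ s := by
    intro B hB B' hB' hne
    by_contra h
    push Not at h
    obtain ⟨R, hR, hRc, rfl⟩ := hF B hB
    obtain ⟨R', hR', hRc', rfl⟩ := hF B' hB'
    exact hne (blk_eq hC hR hRc hR' hRc' h.le)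
  set 𝒳 := S.powerset.filter (fun X => Ind s H S X ∧
    (∀ x ∈ X, (F.filter (fun B => x ∈ B)).card = 1) ∧ ∀ B ∈ F, (X ∩ B).card ≤ s) with h𝒳
  have hne : 𝒳.Nonempty := ⟨∅, by simp [h𝒳, ind_empty]⟩
  obtain ⟨X, hX, hmax⟩ := Finset.exists_max_image _ (fun X => X.card) hne
  rw [h𝒳, Finset.mem_filter] at hX
  obtain ⟨hXS, hXI, hX1, hX2⟩ := hX
  have hXm := ind_card hK hXI
  -- the size of X
  have hsum : ∑ B ∈ F, (X ∩ B).card = X.card := by
    calc ∑ B ∈ F, (X ∩ B).card = ∑ B ∈ F, ∑ x ∈ X, (if x ∈ B then 1 else 0) := by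
          refine Finset.sum_congr rfl fun B _ => ?_
          rw [Finset.card_eq_sum_ones, ← Finset.sum_filter]
          congr 1
      _ = ∑ x ∈ X, ∑ B ∈ F, (if x ∈ B then 1 else 0) := Finset.sum_comm
      _ = ∑ x ∈ X, 1 := by
          refine Finset.sum_congr rfl fun x hx => ?_
          rw [← Finset.sum_filter, ← Finset.card_eq_sum_ones]
          exact hX1 x hx
      _ = X.card := by simp
  obtain ⟨B, hB, hBX⟩ : ∃ B ∈ F, (X ∩ B).card < s := by
    by_contra h
    push Not at h
    have : F.card * s ≤ ∑ B ∈ F, (X ∩ B).card := by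
      rw [← smul_eq_mul]
      exact Finset.card_nsmul_le_sum _ _ _ h
    omega
  obtain ⟨R0, hR0, hR0c, hBR⟩ := hF B hB
  set bad : Finset α → Finset α := fun R => B.filter (fun v => v ∉ R ∧ insert v R ∉ H) with hbad
  have hbadc : ∀ R ∈ X.powersetCard s, (bad R).card ≤ s := by
    intro R hR
    obtain ⟨hRX, hRc⟩ := Finset.mem_powersetCard.mp hR
    rw [hbad, hBR]
    refine few_bad hC hR0 hR0c (hRX.trans hXI.1) hRc ?_
    intro hsub
    have : R ⊆ X ∩ B := by
      intro x hx
      rw [Finset.mem_inter]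
      exact ⟨hRX hx, by rw [hBR]; exact hsub hx⟩
    have := Finset.card_le_card this
    omega
  set Z := X ∪ (F.erase B).biUnion (fun B' => B ∩ B') ∪ (X.powersetCard s).biUnion bad with hZ
  have hZc : Z.card ≤ m + F.card * s + 2 ^ m * s := by
    have h1 : ((F.erase B).biUnion (fun B' => B ∩ B')).card ≤ F.card * s := by
      refine le_trans (Finset.card_biUnion_le_card_mul _ _ s ?_)
        (Nat.mul_le_mul_right _ (Finset.card_le_card (Finset.erase_subset _ _)))
      intro B' hB'
      exact hinter B hB B' (Finset.mem_of_mem_erase hB') (Finset.ne_of_mem_erase hB').symm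
    have h2 : ((X.powersetCard s).biUnion bad).card ≤ 2 ^ m * s := by
      refine le_trans (Finset.card_biUnion_le_card_mul _ _ s hbadc)
        (Nat.mul_le_mul_right _ (card_powersetCard_le X s m hXm.le))
    have h3 := Finset.card_union_le (X ∪ (F.erase B).biUnion (fun B' => B ∩ B'))
      ((X.powersetCard s).biUnion bad)
    have h4 := Finset.card_union_le X ((F.erase B).biUnion (fun B' => B ∩ B'))
    rw [hZ]
    omega
  obtain ⟨v, hvB, hvZ⟩ : ∃ v ∈ B, v ∉ Z := by
    by_contra h
    push Not at h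
    have := Finset.card_le_card (show B ⊆ Z from fun v hv => h v hv)
    have := hbig B hB
    omega
  rw [hZ, Finset.mem_union, Finset.mem_union, not_or, not_or] at hvZ
  obtain ⟨⟨hvX, hvO⟩, hvbad⟩ := hvZ
  have hvother : ∀ B' ∈ F, B' ≠ B → v ∉ B' := by
    intro B' hB' hne hv
    exact hvO (Finset.mem_biUnion.mpr ⟨B', Finset.mem_erase.mpr ⟨hne, hB'⟩,
      Finset.mem_inter.mpr ⟨hvB, hv⟩⟩)
  have hvS : v ∈ S := by rw [hBR] at hvB; exact blk_sub _ _ _ hvB
  have hI : Ind s H S (insert v X) := by
    refine ⟨?_, ?_⟩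
    · intro x hx
      rcases Finset.mem_insert.mp hx with rfl | hx
      · exact hvS
      · exact hXI.1 hx
    · intro A hA hAc
      by_cases hvA : v ∈ A
      · have h1 : A.erase v ⊆ X := by
          intro x hx
          obtain ⟨h1, h2⟩ := Finset.mem_erase.mp hx
          rcases Finset.mem_insert.mp (hA h2) with h | h
          · exact absurd h h1
          · exact h
        by_contra hAH
        apply hvbad
        refine Finset.mem_biUnion.mpr ⟨A.erase v, Finset.mem_powersetCard.mpr ⟨h1, ?_⟩, ?_⟩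
        · rw [Finset.card_erase_of_mem hvA]; omega
        · rw [hbad]
          refine Finset.mem_filter.mpr ⟨hvB, Finset.notMem_erase _ _, ?_⟩
          rwa [Finset.insert_erase hvA]
      · refine hXI.2 A ?_ hAc
        intro x hx
        rcases Finset.mem_insert.mp (hA hx) with rfl | h
        · exact absurd hx hvA
        · exact h
  have hmem : insert v X ∈ 𝒳 := by
    rw [h𝒳, Finset.mem_filter, Finset.mem_powerset]
    refine ⟨hI.1, hI, ?_, ?_⟩
    · intro x hx
      rcases Finset.mem_insert.mp hx with rfl | hx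
      · rw [Finset.card_eq_one]
        refine ⟨B, ?_⟩
        ext B'
        simp only [Finset.mem_filter, Finset.mem_singleton]
        constructor
        · rintro ⟨h1, h2⟩
          by_contra hne
          exact hvother B' h1 hne h2
        · rintro rfl
          exact ⟨hB, hvB⟩
      · exact hX1 x hx
    · intro B' hB'
      by_cases hBB : B' = B
      · subst hBB
        rw [Finset.insert_inter_of_mem hvB]
        have := Finset.card_insert_le v (X ∩ B')
        omega
      · rw [Finset.insert_inter_of_notMem (hvother B' hB' hBB)]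
        exact hX2 B' hB'
  have h3 : (insert v X).card ≤ X.card := hmax _ hmem
  rw [Finset.card_insert_of_notMem hvX] at h3
  omega

/-- threshold for large blocks -/
def C0 (s m : ℕ) : ℕ := m + 2 ^ m * s + 2 ^ m * s + 1

open Classical in
/-- structure: few large blocks that cover all but a bounded number of points -/
theorem structure_thm {s m : ℕ} {H : Finset (Finset α)} {S : Finset α}
    (hC : Closed s H S) (hK : ∀ X ⊆ S, X.card = m → ∃ T ⊆ X, T.card = s + 1 ∧ T ∉ H) :
    ∃ F : Finset (Finset α), F.card * s < m ∧ (∀ B ∈ F, B ⊆ S) ∧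
      (∀ B ∈ F, ∀ A ⊆ B, A.card = s + 1 → A ∉ H) ∧
      (∀ B ∈ F, ∀ B' ∈ F, B ≠ B' → (B ∩ B').card ≤ s) ∧
      S.card ≤ m + 2 ^ m * C0 s m + ∑ B ∈ F, B.card := by
  obtain ⟨G, hG, hcov⟩ := exists_max_ind s H S
  have hGm := ind_card hK hG
  set F := ((G.powersetCard s).image (blk H S)).filter (fun B => C0 s m ≤ B.card) with hFd
  have hFR : ∀ B ∈ F, ∃ R ⊆ S, R.card = s ∧ B = blk H S R := by
    intro B hB
    rw [hFd, Finset.mem_filter, Finset.mem_image] at hB
    obtain ⟨⟨R, hR, rfl⟩, _⟩ := hB
    obtain ⟨h1, h2⟩ := Finset.mem_powersetCard.mp hR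
    exact ⟨R, h1.trans hG.1, h2, rfl⟩
  have hFc : F.card ≤ 2 ^ m := by
    refine le_trans (Finset.card_le_card (Finset.filter_subset _ _)) ?_
    exact le_trans Finset.card_image_le (card_powersetCard_le G s m hGm.le)
  refine ⟨F, ?_, ?_, ?_, ?_, ?_⟩
  · refine packing hC hK F hFR ?_
    intro B hB
    rw [hFd, Finset.mem_filter] at hB
    have h1 := hB.2
    unfold C0 at h1
    have h2 : F.card * s ≤ 2 ^ m * s := Nat.mul_le_mul_right _ hFc
    omega
  · intro B hB
    obtain ⟨R, hR, hRc, rfl⟩ := hFR B hB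
    exact blk_sub _ _ _
  · intro B hB A hA hAc
    obtain ⟨R, hR, hRc, rfl⟩ := hFR B hB
    exact blk_missing hC hR hRc hA hAc
  · intro B hB B' hB' hne
    by_contra h
    push Not at h
    obtain ⟨R, hR, hRc, rfl⟩ := hFR B hB
    obtain ⟨R', hR', hRc', rfl⟩ := hFR B' hB'
    exact hne (blk_eq hC hR hRc hR' hRc' h.le)
  · have hsub : S ⊆ (G ∪ ((G.powersetCard s).filter (fun R => (blk H S R).card < C0 s m)).biUnion
        (blk H S)) ∪ F.biUnion id := by
      intro v hv
      by_cases hvG : v ∈ G
      · exact Finset.mem_union_left _ (Finset.mem_union_left _ hvG)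
      · obtain ⟨R, hR, hRc, hRm⟩ := hcov v hv hvG
        have hRp : R ∈ G.powersetCard s := Finset.mem_powersetCard.mpr ⟨hR, hRc⟩
        have hvb : v ∈ blk H S R := mem_blk.mpr ⟨hv, Or.inr hRm⟩
        by_cases hlt : (blk H S R).card < C0 s m
        · refine Finset.mem_union_left _ (Finset.mem_union_right _ ?_)
          exact Finset.mem_biUnion.mpr ⟨R, Finset.mem_filter.mpr ⟨hRp, hlt⟩, hvb⟩
        · refine Finset.mem_union_right _ ?_
          refine Finset.mem_biUnion.mpr ⟨blk H S R, ?_, hvb⟩
          rw [hFd, Finset.mem_filter]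
          exact ⟨Finset.mem_image_of_mem _ hRp, by omega⟩
    have h1 := Finset.card_le_card hsub
    have h2 := Finset.card_union_le (G ∪ ((G.powersetCard s).filter
      (fun R => (blk H S R).card < C0 s m)).biUnion (blk H S)) (F.biUnion id)
    have h3 := Finset.card_union_le G (((G.powersetCard s).filter
      (fun R => (blk H S R).card < C0 s m)).biUnion (blk H S))
    have h4 : (((G.powersetCard s).filter (fun R => (blk H S R).card < C0 s m)).biUnion
        (blk H S)).card ≤ 2 ^ m * C0 s m := by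
      refine le_trans (Finset.card_biUnion_le_card_mul _ _ (C0 s m) ?_)
        (Nat.mul_le_mul_right _ (le_trans (Finset.card_le_card (Finset.filter_subset _ _))
          (card_powersetCard_le G s m hGm.le)))
      intro R hR
      exact (Finset.mem_filter.mp hR).2.le
    have h5 : (F.biUnion id).card ≤ ∑ B ∈ F, B.card := Finset.card_biUnion_le
    omega

open Classical in
/-- the number of missing sets is at least the sum over the blocks -/
theorem count_missing {s : ℕ} {H : Finset (Finset α)} {S : Finset α} (F : Finset (Finset α))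
    (hsub : ∀ B ∈ F, B ⊆ S) (hmiss : ∀ B ∈ F, ∀ A ⊆ B, A.card = s + 1 → A ∉ H)
    (hint : ∀ B ∈ F, ∀ B' ∈ F, B ≠ B' → (B ∩ B').card ≤ s) :
    ∑ B ∈ F, B.card.choose (s + 1) ≤ ((S.powersetCard (s + 1)).filter (· ∉ H)).card := by
  have h1 : ∑ B ∈ F, B.card.choose (s + 1) = (F.biUnion (fun B => B.powersetCard (s + 1))).card := by
    rw [Finset.card_biUnion]
    · refine Finset.sum_congr rfl fun B _ => ?_
      rw [Finset.card_powersetCard]
    · intro B hB B' hB' hne
      rw [Function.onFun, Finset.disjoint_left]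
      intro T hT hT'
      rw [Finset.mem_powersetCard] at hT hT'
      have h2 := Finset.card_le_card (Finset.subset_inter hT.1 hT'.1)
      have h3 := hint B hB B' hB' hne
      omega
  rw [h1]
  apply Finset.card_le_card
  intro T hT
  obtain ⟨B, hB, hT⟩ := Finset.mem_biUnion.mp hT
  obtain ⟨h2, h3⟩ := Finset.mem_powersetCard.mp hT
  exact Finset.mem_filter.mpr ⟨Finset.mem_powersetCard.mpr ⟨h2.trans (hsub B hB), h3⟩,
    hmiss B hB T h2 h3⟩

end Pool.Agent.H419.Blocks
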